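import Pool.Agent.Y298.CA.Stm

/-! The covering lemma (`S_COV`). -/

set_option autoImplicit false

open Set Filter Metric MeasureTheory

namespace Pool.Agent.Y79.CA

open Pool.Agent.Y298.CA

theorem cov : S_COV := by
  intro E U b ρ R _hU h
  obtain ⟨v, hvE, hdis, hcov⟩ :=
    Vitali.exists_disjoint_subfamily_covering_enlargement_closedBall E (fun w : ℂ => w) ρ R
      (fun a ha => (h a ha).2.1) 5 (by norm_num)
  have hpos : ∀ a ∈ v, 0 < ρ a := fun a ha => (h a (hvE ha)).1
  have hvc : v.Countable := by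
    refine hdis.countable_of_nonempty_interior fun a ha => ?_
    have h1 := hpos a ha
    rw [interior_closedBall _ h1.ne']
    exact nonempty_ball.2 h1
  calc volume E ≤ volume (⋃ a ∈ v, E ∩ closedBall a (5 * ρ a)) := by
        refine measure_mono fun w hw => ?_
        obtain ⟨a, ha, hab⟩ := hcov w hw
        have h1 : w ∈ closedBall w (ρ w) := mem_closedBall_self (h w hw).1.le
        exact mem_iUnion₂.2 ⟨a, ha, hw, hab h1⟩
    _ ≤ ∑' a : v, volume (E ∩ closedBall (a : ℂ) (5 * ρ a)) := measure_biUnion_le _ hvc _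
    _ ≤ ∑' a : v, ∫⁻ z in closedBall (a : ℂ) (ρ a), b z :=
        ENNReal.tsum_le_tsum fun a => (h a (hvE a.2)).2.2.2
    _ = ∫⁻ z in ⋃ a ∈ v, closedBall a (ρ a), b z := by
        rw [lintegral_biUnion hvc (fun a _ => isClosed_closedBall.measurableSet) hdis]
    _ ≤ ∫⁻ z in U, b z := by
        refine lintegral_mono_set ?_
        exact iUnion₂_subset fun a ha => (h a (hvE ha)).2.2.1

end Pool.Agent.Y79.CA
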