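import Pool.Agent.Y298.CA.Stm

/-! Perturbation of finitely many iterates (`S_PE`). -/

set_option autoImplicit false

open Set Filter Metric MeasureTheory

namespace Pool.Agent.Y79.CA

open Pool.Agent.TH279.MD Pool.Agent.Y298.SH Pool.Agent.Y298.CA

theorem pow_diff (R : ℝ) (hR : 0 ≤ R) (k : ℕ) : ∃ K : ℝ, 0 ≤ K ∧ ∀ x y : ℂ, ‖x‖ ≤ R → ‖y‖ ≤ R →
    ‖x ^ k - y ^ k‖ ≤ K * ‖x - y‖ := by
  induction k with
  | zero => exact ⟨0, le_rfl, fun x y _ _ => by simp⟩
  | succ k ih =>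
    obtain ⟨K, hK, h⟩ := ih
    refine ⟨K * R + R ^ k, by positivity, fun x y hx hy => ?_⟩
    have h1 : x ^ (k + 1) - y ^ (k + 1) = (x ^ k - y ^ k) * x + y ^ k * (x - y) := by ring
    rw [h1]
    refine (norm_add_le _ _).trans ?_
    rw [norm_mul, norm_mul, norm_pow, add_mul]
    have h2 : ‖x ^ k - y ^ k‖ * ‖x‖ ≤ (K * ‖x - y‖) * R :=
      mul_le_mul (h x y hx hy) hx (norm_nonneg _) (by positivity)
    have h3 : ‖y‖ ^ k * ‖x - y‖ ≤ R ^ k * ‖x - y‖ := by gcongr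
    linarith

/-- One constant for the `n`-th iterate. -/
def Bd (d n : ℕ) (B : ℝ) : Prop := 1 ≤ B ∧ ∀ c w : ℂ, ‖c‖ ≤ 3 → ‖w‖ ≤ 4 →
  ‖(f d c)^[n] w‖ ≤ B ∧ ‖deriv ((f d c)^[n]) w‖ ≤ B ∧
  ∀ c' : ℂ, ‖c'‖ ≤ 3 → ‖(f d c)^[n] w - (f d c')^[n] w‖ ≤ B * ‖c - c'‖ ∧
    ‖deriv ((f d c)^[n]) w - deriv ((f d c')^[n]) w‖ ≤ B * ‖c - c'‖

theorem f_succ (d : ℕ) (c : ℂ) (n : ℕ) (w : ℂ) : (f d c)^[n + 1] w = ((f d c)^[n] w) ^ d + c := by
  rw [Function.iterate_succ_apply']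
  rfl

theorem deriv_succ (d : ℕ) (c : ℂ) (n : ℕ) (w : ℂ) :
    deriv ((f d c)^[n + 1]) w = d * ((f d c)^[n] w) ^ (d - 1) * deriv ((f d c)^[n]) w := by
  rw [add_comm, deriv_iter_add, Function.iterate_one, deriv_f]

theorem exists_Bd (d n : ℕ) : ∃ B, Bd d n B := by
  induction n with
  | zero =>
    refine ⟨4, by norm_num, fun c w _ hw => ⟨by simpa using hw, ?_, fun c' _ => ⟨?_, ?_⟩⟩⟩
    · rw [Function.iterate_zero, deriv_id]
      norm_num
    · simp
    · rw [Function.iterate_zero, Function.iterate_zero, sub_self, norm_zero]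
      positivity
  | succ n ih =>
    obtain ⟨B, hB, h⟩ := ih
    have hB0 : 0 ≤ B := by linarith
    obtain ⟨K₁, hK₁, hp₁⟩ := pow_diff B hB0 d
    obtain ⟨K₂, hK₂, hp₂⟩ := pow_diff B hB0 (d - 1)
    set B' : ℝ := (B ^ d + 3) + d * B ^ (d - 1) * B + (K₁ * B + 1) +
      (d * (K₂ * B) * B + d * B ^ (d - 1) * B) with hB'
    have e1 : 0 ≤ B ^ d := by positivity
    have e2 : 0 ≤ d * B ^ (d - 1) * B := by positivity
    have e3 : 0 ≤ K₁ * B := by positivity
    have e4 : 0 ≤ d * (K₂ * B) * B := by positivity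
    refine ⟨B', by linarith, fun c w hc hw => ?_⟩
    obtain ⟨h1, h2, h3⟩ := h c w hc hw
    refine ⟨?_, ?_, fun c' hc' => ?_⟩
    · rw [f_succ]
      refine (norm_add_le _ _).trans ?_
      rw [norm_pow]
      have : ‖(f d c)^[n] w‖ ^ d ≤ B ^ d := by gcongr
      linarith
    · rw [deriv_succ, norm_mul, norm_mul, norm_pow, Complex.norm_natCast]
      have : d * ‖(f d c)^[n] w‖ ^ (d - 1) * ‖deriv ((f d c)^[n]) w‖ ≤ d * B ^ (d - 1) * B := by
        gcongr
      linarith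
    · obtain ⟨h1', h2', -⟩ := h c' w hc' hw
      obtain ⟨h4, h5⟩ := h3 c' hc'
      have hd := norm_nonneg (c - c')
      refine ⟨?_, ?_⟩
      · rw [f_succ, f_succ]
        have h6 : ((f d c)^[n] w) ^ d + c - (((f d c')^[n] w) ^ d + c') =
            (((f d c)^[n] w) ^ d - ((f d c')^[n] w) ^ d) + (c - c') := by ring
        rw [h6]
        refine (norm_add_le _ _).trans ?_
        have h7 := hp₁ _ _ h1 h1'
        have h8 : K₁ * ‖(f d c)^[n] w - (f d c')^[n] w‖ ≤ K₁ * (B * ‖c - c'‖) := by gcongr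
        have h9 : (K₁ * B + 1) * ‖c - c'‖ ≤ B' * ‖c - c'‖ :=
          mul_le_mul_of_nonneg_right (by linarith) hd
        linarith
      · rw [deriv_succ, deriv_succ]
        have h6 : d * ((f d c)^[n] w) ^ (d - 1) * deriv ((f d c)^[n]) w -
            d * ((f d c')^[n] w) ^ (d - 1) * deriv ((f d c')^[n]) w =
            d * (((f d c)^[n] w) ^ (d - 1) - ((f d c')^[n] w) ^ (d - 1)) * deriv ((f d c)^[n]) w +
            d * ((f d c')^[n] w) ^ (d - 1) *
              (deriv ((f d c)^[n]) w - deriv ((f d c')^[n]) w) := by ring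
        rw [h6]
        refine (norm_add_le _ _).trans ?_
        rw [norm_mul, norm_mul, norm_mul, norm_mul, norm_pow, Complex.norm_natCast]
        have h7 : ‖((f d c)^[n] w) ^ (d - 1) - ((f d c')^[n] w) ^ (d - 1)‖ ≤
            K₂ * (B * ‖c - c'‖) := (hp₂ _ _ h1 h1').trans (by gcongr)
        have h8 : d * ‖((f d c)^[n] w) ^ (d - 1) - ((f d c')^[n] w) ^ (d - 1)‖ *
            ‖deriv ((f d c)^[n]) w‖ ≤ d * (K₂ * (B * ‖c - c'‖)) * B := by gcongr
        have h9 : d * ‖(f d c')^[n] w‖ ^ (d - 1) *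
            ‖deriv ((f d c)^[n]) w - deriv ((f d c')^[n]) w‖ ≤
            d * B ^ (d - 1) * (B * ‖c - c'‖) := by gcongr
        have h10 : (d * (K₂ * B) * B + d * B ^ (d - 1) * B) * ‖c - c'‖ ≤ B' * ‖c - c'‖ :=
          mul_le_mul_of_nonneg_right (by linarith) hd
        linarith

section

variable {c₁ : ℂ} {r κ : ℝ} {u : ℂ} {T : ℝ} {γ : ℂ → ℂ}

theorem Cv.le_three (h : Cv c₁ r κ u T γ) (hc : ‖c₁‖ ≤ 2) (hr : r ≤ 1) {w : ℂ}
    (hw : w ∈ ball u T) : ‖γ w‖ ≤ 3 := by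
  have h1 := h.near w hw
  have h2 : ‖γ w‖ ≤ ‖γ w - c₁‖ + ‖c₁‖ := by
    have := norm_add_le (γ w - c₁) c₁
    rwa [sub_add_cancel] at this
  linarith

theorem GG_succ (d : ℕ) (γ : ℂ → ℂ) (n : ℕ) (w : ℂ) :
    GG d γ (n + 1) w = (GG d γ n w) ^ d + γ w := f_succ d (γ w) n w

theorem GG_diff (h : Cv c₁ r κ u T γ) (d n : ℕ) {w : ℂ} (hw : w ∈ ball u T) :
    DifferentiableAt ℂ (GG d γ n) w := by
  induction n with
  | zero => exact differentiableAt_id
  | succ n ih =>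
    have h1 : GG d γ (n + 1) = fun w => (GG d γ n w) ^ d + γ w := funext fun w => GG_succ d γ n w
    rw [h1]
    exact (ih.pow d).add ((h.hol w hw).differentiableAt (isOpen_ball.mem_nhds hw))

theorem GG_deriv (h : Cv c₁ r κ u T γ) (d n : ℕ) {w : ℂ} (hw : w ∈ ball u T) :
    deriv (GG d γ (n + 1)) w =
      d * (GG d γ n w) ^ (d - 1) * deriv (GG d γ n) w + deriv γ w := by
  have h1 : GG d γ (n + 1) = fun w => (GG d γ n w) ^ d + γ w := funext fun w => GG_succ d γ n w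
  rw [h1]
  have h2 := (GG_diff h d n hw).hasDerivAt.pow d
  have h3 := ((h.hol w hw).differentiableAt (isOpen_ball.mem_nhds hw)).hasDerivAt
  exact (h2.add h3).deriv

theorem exists_K (d n : ℕ) : ∃ K : ℝ, 0 ≤ K ∧ ∀ (c₁ : ℂ) (r κ : ℝ) (u : ℂ) (T : ℝ)
    (γ : ℂ → ℂ), ‖c₁‖ ≤ 2 → r ≤ 1 → Cv c₁ r κ u T γ → ∀ w ∈ ball u T, ‖w‖ ≤ 4 →
    ‖deriv (GG d γ n) w - DD d γ n w‖ ≤ K * κ := by
  induction n with
  | zero =>
    refine ⟨0, le_rfl, fun c₁ r κ u T γ _ _ _ w _ _ => ?_⟩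
    have h1 : GG d γ 0 = fun w => w := rfl
    have h2 : DD d γ 0 w = 1 := by
      unfold DD
      rw [Function.iterate_zero, deriv_id]
    rw [h1, h2, deriv_id'', sub_self, norm_zero, zero_mul]
  | succ n ih =>
    obtain ⟨K, hK, h⟩ := ih
    obtain ⟨B, hB, hBd⟩ := exists_Bd d n
    have hB0 : 0 ≤ B := by linarith
    refine ⟨d * B ^ (d - 1) * K + 1, by positivity, fun c₁ r κ u T γ hc hr hγ w hw hw4 => ?_⟩
    have h1 := h c₁ r κ u T γ hc hr hγ w hw hw4
    have h2 := (hBd (γ w) w (Cv.le_three hγ hc hr hw) hw4).1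
    have h3 : DD d γ (n + 1) w = d * (GG d γ n w) ^ (d - 1) * DD d γ n w :=
      deriv_succ d (γ w) n w
    rw [GG_deriv hγ d n hw, h3]
    have h4 : d * (GG d γ n w) ^ (d - 1) * deriv (GG d γ n) w + deriv γ w -
        d * (GG d γ n w) ^ (d - 1) * DD d γ n w =
        d * (GG d γ n w) ^ (d - 1) * (deriv (GG d γ n) w - DD d γ n w) + deriv γ w := by ring
    rw [h4]
    refine (norm_add_le _ _).trans ?_
    rw [norm_mul, norm_mul, norm_pow, Complex.norm_natCast]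
    have h5 : ‖GG d γ n w‖ ≤ B := h2
    have h6 := hγ.slow w hw
    have h7 : d * ‖GG d γ n w‖ ^ (d - 1) * ‖deriv (GG d γ n) w - DD d γ n w‖ ≤
        d * B ^ (d - 1) * (K * κ) := by gcongr
    linarith

end

theorem pe : S_PE := by
  intro d N _
  induction N with
  | zero =>
    refine ⟨1, one_pos, fun c₁ r κ u T γ _ hr0 _ hγ n hn w hw _ => ?_⟩
    have hn0 : n = 0 := by omega
    subst hn0
    have hκ : 0 ≤ κ := (norm_nonneg _).trans (hγ.slow w hw)
    have h1 : GG d γ 0 = fun w => w := rfl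
    have h2 : DD d γ 0 w = 1 := by
      unfold DD
      rw [Function.iterate_zero, deriv_id]
    have h3 : deriv ((f d c₁)^[0]) w = 1 := by
      rw [Function.iterate_zero, deriv_id]
    refine ⟨?_, ?_, ?_⟩
    · rw [h1, Function.iterate_zero, id, sub_self, norm_zero]
      positivity
    · rw [h1, h3, deriv_id'', sub_self, norm_zero]
      positivity
    · rw [h2, h3, sub_self, norm_zero]
      positivity
  | succ N ih =>
    obtain ⟨C, hC, h⟩ := ih
    obtain ⟨B, hB, hBd⟩ := exists_Bd d (N + 1)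
    obtain ⟨K, hK, hKd⟩ := exists_K d (N + 1)
    refine ⟨C + B + K, by linarith, fun c₁ r κ u T γ hc hr0 hr hγ n hn w hw hw4 => ?_⟩
    have hκ : 0 ≤ κ := (norm_nonneg _).trans (hγ.slow w hw)
    rcases Nat.lt_or_ge n (N + 1) with h0 | h0
    · obtain ⟨h1, h2, h3⟩ := h c₁ r κ u T γ hc hr0 hr hγ n (by omega) w hw hw4
      have e1 : C * r ≤ (C + B + K) * r := mul_le_mul_of_nonneg_right (by linarith) hr0
      have e2 : C * (r + κ) ≤ (C + B + K) * (r + κ) :=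
        mul_le_mul_of_nonneg_right (by linarith) (by linarith)
      exact ⟨h1.trans e1, h2.trans e2, h3.trans e1⟩
    · have hn1 : n = N + 1 := by omega
      subst hn1
      obtain ⟨h1, h2, h3⟩ := hBd (γ w) w (Cv.le_three hγ hc hr hw) hw4
      obtain ⟨h4, h5⟩ := h3 c₁ (by linarith)
      have h6 := hγ.near w hw
      have h7 := hKd c₁ r κ u T γ hc hr hγ w hw hw4
      have e1 : B * ‖γ w - c₁‖ ≤ B * r := by gcongr
      have e2 : 0 ≤ (C + K) * r := by positivity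
      have e3 : 0 ≤ K * r := by positivity
      have e4 : 0 ≤ (C + B) * κ := by positivity
      have e5 : 0 ≤ C * r := by positivity
      have h8 : ‖DD d γ (N + 1) w - deriv ((f d c₁)^[N + 1]) w‖ ≤ B * r := h5.trans e1
      refine ⟨?_, ?_, ?_⟩
      · have h9 : ‖GG d γ (N + 1) w - (f d c₁)^[N + 1] w‖ ≤ B * r := h4.trans e1
        linarith
      · have h9 := norm_add_le (deriv (GG d γ (N + 1)) w - DD d γ (N + 1) w)
          (DD d γ (N + 1) w - deriv ((f d c₁)^[N + 1]) w)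
        rw [sub_add_sub_cancel] at h9
        nlinarith
      · linarith

end Pool.Agent.Y79.CA
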